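import Mathlib
import Pool.Agent.J4.H37.Stark.Rank4
import Pool.Agent.J4.H58.BSD.Fun

/-!
# Inductive invariants which are trivial on the nontrivial linear characters
-/

set_option autoImplicit false
set_option linter.unusedSectionVars false

namespace Pool.Agent.J4.H58.EX

open NumberField NumberField.ComplexEmbedding Pool.Agent.R389 Pool.Agent.K4H74 Pool.Agent.K4H74.ST
  Pool.Agent.K4H77.SL Pool.Agent.K4H34 Pool.Agent.K4H74.SK Pool.Agent.K4H34.AL
  Pool.Agent.J4.H37.Stark

variable {C : Type} [CommGroup C]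

/-- hyperelementary groups are solvable -/
lemma hyper_solvable {U : Type} [Group U] [Finite U] (h : Hyper U) : Group.IsSolvable U := by
  obtain ⟨p, hp, c, hc, hn, hq⟩ := h
  have hfp : Fact p.Prime := ⟨hp⟩
  have hN : (Subgroup.zpowers c).Normal := by
    constructor
    rintro x ⟨k, rfl⟩ u
    have h1 : u * c ^ k * u⁻¹ = (u * c * u⁻¹) ^ k := (conj_zpow).symm
    change u * c ^ k * u⁻¹ ∈ _
    rw [h1]
    exact Subgroup.zpow_mem _ (hn u) k
  have hC : Group.IsSolvable (Subgroup.zpowers c) := Group.isSolvable_of_comm fun a b => by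
    obtain ⟨a, i, rfl⟩ := a
    obtain ⟨b, j, rfl⟩ := b
    apply Subtype.ext
    exact (Commute.refl c).zpow_zpow i j
  have hP : IsPGroup p (U ⧸ Subgroup.zpowers c) := by
    intro x
    obtain ⟨u, rfl⟩ := QuotientGroup.mk_surjective x
    obtain ⟨k, hk⟩ := hq u
    exact ⟨k, by rw [← QuotientGroup.mk_pow]; exact (QuotientGroup.eq_one_iff _).mpr hk⟩
  have hQ : Group.IsNilpotent (U ⧸ Subgroup.zpowers c) := hP.isNilpotent
  have hQ' : Group.IsSolvable (U ⧸ Subgroup.zpowers c) := inferInstance
  refine Group.isSolvable_of_ker_le_range (Subgroup.zpowers c).subtype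
    (QuotientGroup.mk' (Subgroup.zpowers c)) ?_
  rw [QuotientGroup.ker_mk', Subgroup.range_subtype]

/-- solvable groups have linear characters of prime order -/
lemma exists_prime_char {G : Type} [Group G] [Finite G] [Group.IsSolvable G] [Nontrivial G] :
    ∃ (q : ℕ) (η : G →* ℂˣ), q.Prime ∧ η ^ q = 1 ∧ η ≠ 1 := by
  have h1 : commutator G < ⊤ := Group.IsSolvable.commutator_lt_top_of_nontrivial G
  obtain ⟨g, -, hg⟩ := SetLike.exists_of_lt h1
  have hfin : Finite (Abelianization G) := inferInstance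
  have h2 : Abelianization.of g ≠ 1 := by
    intro h
    exact hg ((QuotientGroup.eq_one_iff g).mp h)
  obtain ⟨θ, hθ⟩ := CommGroup.exists_apply_ne_one_of_hasEnoughRootsOfUnity
    (Abelianization G) ℂ h2
  have hθ1 : θ.comp Abelianization.of ≠ 1 := by
    intro h
    exact hθ (DFunLike.congr_fun h g)
  obtain ⟨θ', hθ'⟩ : ∃ θ' : G →* ℂˣ, θ' = θ.comp Abelianization.of := ⟨_, rfl⟩
  have hg' : θ' g ≠ 1 := by rw [hθ']; exact hθ
  have hex : ∃ n : ℕ, 0 < n ∧ ∀ x, θ' x ^ n = 1 :=
    ⟨Nat.card G, Nat.card_pos, fun x => by rw [← map_pow, pow_card_eq_one', map_one]⟩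
  classical
  obtain ⟨n, hn, hmin⟩ : ∃ n : ℕ, (0 < n ∧ ∀ x, θ' x ^ n = 1) ∧
      ∀ m < n, ¬ (0 < m ∧ ∀ x, θ' x ^ m = 1) :=
    ⟨Nat.find hex, Nat.find_spec hex, fun m hm => Nat.find_min hex hm⟩
  have hn1 : n ≠ 1 := by
    rintro rfl
    apply hg'
    have := hn.2 g
    rwa [pow_one] at this
  obtain ⟨q, hq, k, hk⟩ := Nat.exists_prime_and_dvd hn1
  have hk0 : 0 < k := by
    rcases Nat.eq_zero_or_pos k with h | h
    · rw [h, mul_zero] at hk
      omega
    · exact h
  have hkn : k < n := by
    rw [hk]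
    have := hq.two_le
    nlinarith
  refine ⟨q, θ' ^ k, hq, ?_, ?_⟩
  · apply MonoidHom.ext
    intro x
    rw [MonoidHom.pow_apply, MonoidHom.pow_apply, ← pow_mul, mul_comm, ← hk, hn.2]
    rfl
  · intro h
    exact hmin k hkn ⟨hk0, fun x => by rw [← MonoidHom.pow_apply, h]; rfl⟩

/-- the trivial functor -/
noncomputable def trivFun : BSD.GFun where
  X _ _ _ := ℂ
  ag _ _ _ := inferInstance
  mo _ _ _ := inferInstance
  fd _ _ _ := inferInstance
  map _ _ _ _ _ _ _ := LinearMap.id
  map_id _ _ _ := rfl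
  map_comp _ _ _ _ _ _ _ _ _ _ _ := rfl
  inj _ _ _ _ _ _ _ := Function.injective_id
  desc _ _ _ _ _ _ _ _ b _ := ⟨b, rfl⟩

/-- the multiplicity of the trivial character -/
noncomputable def meanInv : ArtinInvariant (Multiplicative ℂ) := BSD.mulInv trivFun

/-- the invariant is trivial on the nontrivial linear characters -/
def NT (A : ArtinInvariant C) : Prop :=
  ∀ (K L : Type) [Field K] [NumberField K] [Field L] [NumberField L] [Algebra K L] [IsGalois K L]
    (ψ : (L ≃ₐ[K] L) →* ℂˣ), (∃ g, ψ g ≠ 1) → A.val K L (lc ψ) = 1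

section

variable {K L : Type} [Field K] [NumberField K] [Field L] [NumberField L] [Algebra K L]
  [IsGalois K L]

lemma mean_val (ψ : (L ≃ₐ[K] L) →* ℂˣ) :
    (ψ = 1 → Multiplicative.toAdd (meanInv.val K L (lc ψ)) = 1) ∧
      (ψ ≠ 1 → Multiplicative.toAdd (meanInv.val K L (lc ψ)) = 0) := by
  classical
  have : Fintype (L ≃ₐ[K] L) := Fintype.ofFinite _
  have hG : (Nat.card (L ≃ₐ[K] L) : ℂ) ≠ 0 := by exact_mod_cast Nat.card_pos.ne'
  have h1 : Multiplicative.toAdd (meanInv.val K L (lc ψ))
      = (Nat.card (L ≃ₐ[K] L) : ℂ)⁻¹ * ∑ g : L ≃ₐ[K] L, ((ψ g : ℂˣ) : ℂ) := by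
    change BSD.mul trivFun K (lc ψ) = _
    rw [BSD.mul, finsum_eq_sum_of_fintype]
    congr 1
    refine Finset.sum_congr rfl fun g _ => ?_
    have h2 : LinearMap.trace ℂ (trivFun.X L) (BSD.gact trivFun K g⁻¹) = 1 := by
      change LinearMap.trace ℂ ℂ (LinearMap.id) = 1
      rw [LinearMap.trace_id, Module.finrank_self, Nat.cast_one]
    rw [h2, mul_one]
    rfl
  rw [h1]
  constructor
  · rintro rfl
    simp only [MonoidHom.one_apply, Units.val_one, Finset.sum_const, Finset.card_univ,
      nsmul_eq_mul, mul_one]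
    rw [← Nat.card_eq_fintype_card]
    exact inv_mul_cancel₀ hG
  · intro hψ
    have h2 : ∑ g : L ≃ₐ[K] L, ((Units.coeHom ℂ).comp ψ) g = 0 := by
      apply sum_hom_units_eq_zero
      intro h
      apply hψ
      apply MonoidHom.ext
      intro g
      exact Units.ext (DFunLike.congr_fun h g)
    have h3 : ∑ g : L ≃ₐ[K] L, ((ψ g : ℂˣ) : ℂ) = 0 := h2
    rw [h3, mul_zero]

/-- solvable extensions -/
lemma triv_solvable {A : ArtinInvariant C} (hA : NT A) : ∀ (n : ℕ) (K L : Type) [Field K]
    [NumberField K] [Field L] [NumberField L] [Algebra K L] [IsGalois K L],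
    Nat.card (L ≃ₐ[K] L) = n → Group.IsSolvable (L ≃ₐ[K] L) →
      A.val K L (lc 1) = A.val L L (lc 1) := by
  intro n
  induction n using Nat.strong_induction_on with
  | _ n ih =>
    intro K L _ _ _ _ _ _ hn hs
    have hfin : FiniteDimensional K L := Module.Finite.of_restrictScalars_finite ℚ K L
    rcases subsingleton_or_nontrivial (L ≃ₐ[K] L) with hsub | hnt
    · -- `K = L`
      have h1 := A.val_ind K L L (lc 1) (IsChar.lc 1)
      rw [← h1]
      congr 1
      funext g
      have u1 : Unique (L ≃ₐ[K] L) := ⟨⟨1⟩, fun _ => Subsingleton.elim _ _⟩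
      have u2 : Unique (L ≃ₐ[L] L) := ⟨⟨1⟩, fun _ => Subsingleton.elim _ _⟩
      rw [indChar, finsum_unique, finsum_unique, finsum_eq_if, if_pos (Subsingleton.elim _ _),
        Nat.card_unique]
      simp [lc]
    · obtain ⟨q, η, hq, hη, hη1⟩ := exists_prime_char (G := L ≃ₐ[K] L)
      have h1 := prod_line A (1 : (L ≃ₐ[K] L) →* ℂˣ) η hq hη hη1
      have h2 : ∀ j ∈ Finset.range q, j ≠ 0 → A.val K L (lc (1 * η ^ j)) = 1 := by
        intro j hj hj0
        apply hA
        by_contra hcon
        push Not at hcon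
        obtain ⟨g, hg⟩ : ∃ g, η g ≠ 1 := by
          by_contra hc
          push Not at hc
          exact hη1 (MonoidHom.ext hc)
        have hqf : Fact q.Prime := ⟨hq⟩
        have h3 : η g ^ j = 1 := by
          have := hcon g
          rwa [MonoidHom.mul_apply, MonoidHom.one_apply, one_mul] at this
        have h4 : orderOf (η g) = q := orderOf_eq_prime (DFunLike.congr_fun hη g) hg
        have h5 := orderOf_dvd_of_pow_eq_one h3
        rw [h4] at h5
        exact absurd (Nat.le_of_dvd (Nat.pos_of_ne_zero hj0) h5)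
          (not_le.mpr (Finset.mem_range.mp hj))
      rw [Finset.prod_eq_single_of_mem 0 (Finset.mem_range.mpr hq.pos) h2] at h1
      have h3 : (1 : (L ≃ₐ[K] L) →* ℂˣ) * η ^ 0 = 1 := by
        apply MonoidHom.ext
        intro g
        simp
      rw [h3] at h1
      have h4 : resF (IntermediateField.fixedField η.ker) (1 : (L ≃ₐ[K] L) →* ℂˣ) = 1 := rfl
      rw [h4] at h1
      rw [h1]
      have e := IntermediateField.subgroupEquivAlgEquiv η.ker
      have hcard : Nat.card (L ≃ₐ[IntermediateField.fixedField η.ker] L) < n := by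
        rw [← Nat.card_congr e.toEquiv, ← hn]
        have h5 : η.ker ≠ ⊤ := by
          intro h
          apply hη1
          exact (MonoidHom.ker_eq_top_iff).mp h
        have h6 : Nat.card η.ker < Nat.card (⊤ : Subgroup (L ≃ₐ[K] L)) :=
          Set.Finite.card_lt_card (Set.toFinite _) (SetLike.coe_ssubset_coe.mpr
            (lt_top_iff_ne_top.mpr h5))
        rwa [Subgroup.card_top] at h6
      refine ih _ hcard _ L rfl ?_
      exact Group.isSolvable_of_isSolvable_injective (f := e.symm.toMonoidHom)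
        e.symm.injective

/-- reduction to linear characters of hyperelementary subgroups -/
lemma brauer_hyper {M : Type} [CommGroup M] (A : ArtinInvariant M) (P : Subgroup M)
    (h : ∀ (U : Subgroup (L ≃ₐ[K] L)), Hyper U →
      ∀ ψ : (L ≃ₐ[IntermediateField.fixedField U] L) →* ℂˣ,
      A.val (IntermediateField.fixedField U) L (lc ψ) ∈ P)
    {χ : (L ≃ₐ[K] L) → ℂ} (hχ : IsChar χ) : A.val K L χ ∈ P := by
  have hfin : FiniteDimensional K L := Module.Finite.of_restrictScalars_finite ℚ K L
  have h1 : MonG (L ≃ₐ[K] L) ≤ TT A (K := K) (L := L) P := by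
    rw [MonG, AddSubgroup.closure_le]
    rintro f ⟨U, ψ, hU, rfl⟩
    rw [SetLike.mem_coe, mem_TT_char A (IsChar.ind_lin U ψ)]
    obtain ⟨ψ', hψ'⟩ := ind_fixed_lin U ψ
    rw [hψ', A.val_ind K (IntermediateField.fixedField U) L (lc ψ') (IsChar.lc ψ')]
    exact h U hU ψ'
  exact (mem_TT_char A hχ).mp (h1 (virt_mem_mon hχ.virt))

/-- **the trivial characters all have the same value** -/
theorem triv_gal {A : ArtinInvariant C} (hA : NT A) :
    A.val K L (lc 1) = A.val L L (lc 1) := by
  have hfin : FiniteDimensional K L := Module.Finite.of_restrictScalars_finite ℚ K L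
  obtain ⟨D, hD⟩ : ∃ D, D = A.val L L (lc 1) := ⟨_, rfl⟩
  have key := brauer_hyper (K := K) (L := L) (prodInv A meanInv)
    (Subgroup.zpowers ((D, Multiplicative.ofAdd (1 : ℂ)) : C × Multiplicative ℂ)) (by
      intro U hU ψ
      have e := IntermediateField.subgroupEquivAlgEquiv U
      have hs : Group.IsSolvable (L ≃ₐ[IntermediateField.fixedField U] L) := by
        have := hyper_solvable hU
        exact Group.isSolvable_of_isSolvable_injective (f := e.symm.toMonoidHom)
          e.symm.injective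
      by_cases hψ : ψ = 1
      · have h1 : (prodInv A meanInv).val (IntermediateField.fixedField U) L (lc ψ)
            = (D, Multiplicative.ofAdd (1 : ℂ)) := by
          refine Prod.ext ?_ ?_
          · change A.val _ L (lc ψ) = D
            rw [hψ, hD]
            exact triv_solvable hA _ _ L rfl hs
          · exact Multiplicative.toAdd.injective ((mean_val ψ).1 hψ)
        rw [h1]
        exact Subgroup.mem_zpowers _
      · have h1 : (prodInv A meanInv).val (IntermediateField.fixedField U) L (lc ψ) = 1 := by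
          refine Prod.ext ?_ ?_
          · refine hA _ _ ψ ?_
            by_contra hcon
            push Not at hcon
            exact hψ (MonoidHom.ext hcon)
          · exact Multiplicative.toAdd.injective ((mean_val ψ).2 hψ)
        rw [h1]
        exact one_mem _) (χ := lc 1) (IsChar.lc 1)
  obtain ⟨k, hk⟩ := key
  have h1 : D ^ k = A.val K L (lc 1) := congrArg Prod.fst hk
  have h2 : (Multiplicative.ofAdd (1 : ℂ)) ^ k = meanInv.val K L (lc 1) := congrArg Prod.snd hk
  have h3 := congrArg Multiplicative.toAdd h2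
  rw [(mean_val (K := K) (L := L) 1).1 rfl, toAdd_zpow, toAdd_ofAdd, zsmul_eq_mul, mul_one] at h3
  have h4 : k = 1 := by exact_mod_cast h3
  rw [← h1, h4, zpow_one, hD]

end

end Pool.Agent.J4.H58.EX
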