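import Mathlib

/-!
# Functions on the plane over a prime field whose products over the lines are trivial
-/

set_option autoImplicit false
set_option linter.unusedSectionVars false

namespace Pool.Agent.J4.H58.EX

variable {C : Type} [CommGroup C]

/-- if the products over the vertical lines and over all lines through the origin are trivial, then
the value at the origin is killed by `q` -/
lemma pow_of_lines {q : ℕ} [Fact q.Prime] (f : ZMod q → ZMod q → C)
    (hv : ∀ i, ∏ j, f i j = 1) (hd : ∀ b, ∏ i, f i (b * i) = 1) : f 0 0 ^ q = 1 := by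
  classical
  have h1 : ∏ b : ZMod q, ∏ i : ZMod q, f i (b * i) = 1 := Finset.prod_eq_one fun b _ => hd b
  rw [Finset.prod_comm] at h1
  have h2 : ∀ i ∈ Finset.univ.erase (0 : ZMod q), ∏ b : ZMod q, f i (b * i) = 1 := by
    intro i hi
    have hi0 : i ≠ 0 := Finset.ne_of_mem_erase hi
    rw [← hv i]
    exact Fintype.prod_equiv (Equiv.mulRight₀ i hi0) _ _ fun b => rfl
  rw [← Finset.mul_prod_erase Finset.univ _ (Finset.mem_univ (0 : ZMod q)),
    Finset.prod_eq_one h2, mul_one] at h1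
  simp only [mul_zero, Finset.prod_const, Finset.card_univ, ZMod.card] at h1
  exact h1

/-- products over `ZMod q` -/
lemma prod_zmod {q : ℕ} [NeZero q] (g : ℕ → C) :
    ∏ i : ZMod q, g i.val = ∏ i ∈ Finset.range q, g i := by
  obtain ⟨m, rfl⟩ : ∃ m, q = m + 1 := ⟨q - 1, by have := NeZero.pos q; omega⟩
  exact Fin.prod_univ_eq_prod_range g (m + 1)

/-- a linear character which is trivial on the kernel of a character of prime order is a power of
it -/
lemma eq_pow_of_ker' {G : Type} [Group G] {η θ : G →* ℂˣ} {q : ℕ} (hq : q.Prime)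
    (hη : ∀ g, η g ^ q = 1) (hη1 : ∃ g, η g ≠ 1) (h : ∀ g, η g = 1 → θ g = 1) :
    ∃ b : ℕ, ∀ g, θ g = η g ^ b := by
  obtain ⟨g, hg⟩ := hη1
  have hqf : Fact q.Prime := ⟨hq⟩
  have hne : NeZero q := ⟨hq.ne_zero⟩
  have hord : orderOf (η g) = q := orderOf_eq_prime (hη g) hg
  have hprim : IsPrimitiveRoot ((η g : ℂˣ) : ℂ) q := by
    rw [IsPrimitiveRoot.coe_units_iff]
    rw [← hord]
    exact IsPrimitiveRoot.orderOf _
  have hθ : ∀ x, θ x ^ q = 1 := by
    intro x
    rw [← map_pow]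
    apply h
    rw [map_pow, hη]
  have hη' : ∀ x, ((η x : ℂˣ) : ℂ) ^ q = 1 := by
    intro x
    rw [← Units.val_pow_eq_pow_val, hη x, Units.val_one]
  have hθ' : ((θ g : ℂˣ) : ℂ) ^ q = 1 := by
    rw [← Units.val_pow_eq_pow_val, hθ g, Units.val_one]
  obtain ⟨b, -, hb⟩ := hprim.eq_pow_of_pow_eq_one hθ'
  refine ⟨b, fun x => ?_⟩
  obtain ⟨c, -, hc⟩ := hprim.eq_pow_of_pow_eq_one (hη' x)
  have hc' : η x = η g ^ c := Units.ext (by rw [Units.val_pow_eq_pow_val, hc])
  have hb' : θ g = η g ^ b := Units.ext (by rw [Units.val_pow_eq_pow_val, hb])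
  have h1 : η (x * (g ^ c)⁻¹) = 1 := by
    rw [map_mul, map_inv, map_pow, hc', mul_inv_cancel]
  have h2 := h _ h1
  rw [map_mul, map_inv, map_pow, mul_inv_eq_one] at h2
  rw [h2, hb', hc', ← pow_mul, ← pow_mul, mul_comm]

end Pool.Agent.J4.H58.EX
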