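import Mathlib
import Pool.Agent.J4.H37.Stark.Rank2

/-!
# Characters of prime order of the Galois groups of number fields which are independent of a given
extension
-/

set_option autoImplicit false
set_option linter.unusedSectionVars false

namespace Pool.Agent.J4.H58.EX

open NumberField Polynomial NumberField.ComplexEmbedding Pool.Agent.R389 Pool.Agent.K4H74
  Pool.Agent.K4H74.ST Pool.Agent.J4.H37.Stark

/-- **Two characters of order `q` which are independent on the Galois group over `L`.** -/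
theorem exists_indep' (K L : Type) [Field K] [NumberField K] [Field L] [NumberField L] [Algebra K L]
    [IsGalois K L] {q : ℕ} (hq : q.Prime) :
    ∃ (M : Type) (_ : Field M) (_ : NumberField M) (_ : Algebra K M) (_ : Algebra L M)
      (_ : IsScalarTower K L M) (_ : IsGalois K M) (η₁ η₂ : (M ≃ₐ[K] M) →* ℂˣ),
      (∀ g, η₁ g ^ q = 1) ∧ (∀ g, η₂ g ^ q = 1) ∧ ∀ a b : ℕ,
        (∀ g : M ≃ₐ[K] M, AlgEquiv.restrictNormalHom L g = 1 → η₁ g ^ a * η₂ g ^ b = 1) →
          q ∣ a ∧ q ∣ b := by
  classical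
  obtain ⟨N₁, i1, i2, i3, i4⟩ := Pool.Agent.K4H34.ST.exists_gal L
  let D := Module.finrank ℚ L
  obtain ⟨n, hn, Λ, hΛ, hc⟩ := exists_many hq (D + 1)
  obtain ⟨N, j1, j2, j3, j4, j5, j6, hN⟩ := Pool.Agent.K4H77.SL.exists_ext_poly ℚ N₁
    {cyclotomic n (𝓞 N₁)} (Set.finite_singleton _) (by
      intro f hf
      rw [Set.mem_singleton_iff.mp hf]
      exact cyclotomic.monic n _)
  have ej : j3 = DivisionRing.toRatAlgebra := Subsingleton.elim _ _
  subst ej
  obtain ⟨s, hs⟩ := hN _ (Set.mem_singleton _)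
  -- a primitive root
  obtain ⟨z, hz⟩ : ∃ z, z ∈ s := by
    apply Multiset.exists_mem_of_ne_zero
    rintro rfl
    rw [Multiset.map_zero, Multiset.prod_zero, map_cyclotomic] at hs
    have h1 : (cyclotomic n (𝓞 N)).natDegree = 0 := by rw [hs, natDegree_one]
    rw [natDegree_cyclotomic] at h1
    exact (Nat.totient_pos.mpr (Nat.pos_of_neZero n)).ne' h1
  have hz1 : (cyclotomic n (𝓞 N)).IsRoot z := by
    rw [map_cyclotomic] at hs
    rw [hs, IsRoot.def, eval_multiset_prod, Multiset.map_map, Multiset.prod_eq_zero]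
    rw [Multiset.mem_map]
    exact ⟨z, hz, by simp⟩
  have hz2 : (cyclotomic n N).IsRoot (z : N) := by
    rw [← map_cyclotomic n (algebraMap (𝓞 N) N)]
    exact hz1.map
  have hζ : IsPrimitiveRoot (z : N) n := isRoot_cyclotomic_iff.mp hz2
  let aL : Algebra L N := ((algebraMap N₁ N).comp (algebraMap L N₁)).toAlgebra
  let aK : Algebra K N := ((algebraMap L N).comp (algebraMap K L)).toAlgebra
  have htow : IsScalarTower K L N := IsScalarTower.of_algebraMap_eq fun x => rfl
  have htow2 : IsScalarTower ℚ K N := inferInstance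
  have hgal : IsGalois K N := IsGalois.tower_top_of_isGalois ℚ K N
  let U := ((rsHom L N).range).map (hζ.autToPow ℚ)
  have hU : U.index ≤ D := by
    have h1 := Subgroup.index_map_dvd (H := (rsHom L N).range) (autToPow_surj hζ)
    rw [index_rsHom] at h1
    exact Nat.le_of_dvd Module.finrank_pos h1
  have hcard : q * U.index < Λ.card := by
    rw [hc, pow_succ, mul_comm]
    apply Nat.mul_lt_mul_of_pos_right _ hq.pos
    exact lt_of_le_of_lt hU (Nat.lt_pow_self hq.one_lt)
  obtain ⟨l₁, hl₁, l₂, hl₂, hind⟩ := exists_two U hq Λ hΛ hcard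
  refine ⟨N, j1, j2, aK, aL, htow, hgal, (l₁.comp (hζ.autToPow ℚ)).comp (rsHom K N),
    (l₂.comp (hζ.autToPow ℚ)).comp (rsHom K N), fun g => hΛ l₁ hl₁ _, fun g => hΛ l₂ hl₂ _, ?_⟩
  intro a b hab
  apply hind a b
  rintro u ⟨h, ⟨g, rfl⟩, rfl⟩
  refine hab (g.restrictScalars K) ?_
  apply AlgEquiv.ext
  intro x
  apply (algebraMap L N).injective
  exact (AlgEquiv.restrictNormal_commutes (g.restrictScalars K) L x).trans (g.commutes x)

end Pool.Agent.J4.H58.EX
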