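import Mathlib
import Pool.Agent.J4.H37.Stark.Rank4
import Pool.Agent.J4.H58.EX.Line
import Pool.Agent.J4.H58.EX.Indep

/-!
# The nontrivial linear characters over the fields of large degree
-/

set_option autoImplicit false
set_option linter.unusedSectionVars false

namespace Pool.Agent.J4.H58.EX

open NumberField NumberField.ComplexEmbedding Pool.Agent.R389 Pool.Agent.K4H74 Pool.Agent.K4H74.ST
  Pool.Agent.K4H77.SL Pool.Agent.K4H34 Pool.Agent.K4H74.SK Pool.Agent.K4H34.AL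
  Pool.Agent.J4.H37.Stark

variable {C : Type} [CommGroup C]

/-- nontrivial characters over fields of degree at least `n` which are trivial at no embedding or at
at least `n` embeddings -/
def InT (n : ℕ) {K L : Type} [Field K] [NumberField K] [Field L] [Algebra K L]
    (ψ : (L ≃ₐ[K] L) →* ℂˣ) : Prop :=
  (∃ g, ψ g ≠ 1) ∧ n ≤ Module.finrank ℚ K ∧ (nTriv ψ = 0 ∨ n ≤ nTriv ψ)

/-- the invariant is trivial on these characters -/
def TBig (A : ArtinInvariant C) (n : ℕ) : Prop :=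
  ∀ (K L : Type) [Field K] [NumberField K] [Field L] [NumberField L] [Algebra K L] [IsGalois K L]
    (ψ : (L ≃ₐ[K] L) →* ℂˣ), InT n ψ → A.val K L (lc ψ) = 1

section basics

variable {K M : Type} [Field K] [NumberField K] [Field M] [NumberField M] [Algebra K M]
  [IsGalois K M]

lemma odd_one {η : (M ≃ₐ[K] M) →* ℂˣ} {q : ℕ} (hq : Odd q) (hη : ∀ g, η g ^ q = 1)
    {Φ : M →+* ℂ} {c : M ≃ₐ[K] M} (hc : IsConj Φ c) : η c = 1 := by
  have h1 : η c ^ 2 = 1 := by
    rw [pow_two, ← map_mul, isConj_sq hc, map_one]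
  obtain ⟨k, rfl⟩ := hq
  have h2 := hη c
  rwa [pow_add, pow_mul, h1, one_pow, one_mul, pow_one] at h2

lemma nTriv_mul_odd (ψ : (M ≃ₐ[K] M) →* ℂˣ) {η : (M ≃ₐ[K] M) →* ℂˣ} {q : ℕ} (hq : Odd q)
    (hη : ∀ g, η g ^ q = 1) : nTriv (ψ * η) = nTriv ψ := by
  unfold nTriv
  refine Nat.card_congr (Equiv.subtypeEquivRight fun φ => ?_)
  constructor
  · intro h Φ hΦ g hg
    have h1 := h Φ hΦ g hg
    rwa [MonoidHom.mul_apply, odd_one hq hη hg, mul_one] at h1
  · intro h Φ hΦ g hg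
    rw [MonoidHom.mul_apply, odd_one hq hη hg, mul_one]
    exact h Φ hΦ g hg

lemma nTriv_infl_eq {L : Type} [Field L] [NumberField L] [Algebra K L] [IsGalois K L]
    [Algebra L M] [IsScalarTower K L M] (ψ : (L ≃ₐ[K] L) →* ℂˣ) :
    nTriv (ψ.comp (AlgEquiv.restrictNormalHom L) : (M ≃ₐ[K] M) →* ℂˣ) = nTriv ψ :=
  le_antisymm (nTriv_defl ψ) (nTriv_infl ψ)

/-- characters which are nowhere trivial stay so over extensions of odd degree -/
lemma nTriv_zero {ψ η : (M ≃ₐ[K] M) →* ℂˣ} {q : ℕ} (hq : Odd q) (hη : ∀ g, η g ^ q = 1)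
    (h : nTriv ψ = 0) : nTriv (resF (IntermediateField.fixedField η.ker) ψ) = 0 := by
  classical
  have hfinM : FiniteDimensional K M := Module.Finite.of_restrictScalars_finite ℚ K M
  obtain ⟨hK, hψ⟩ := odd_of_nTriv h
  rw [nTriv, Nat.card_eq_zero]
  left
  refine ⟨fun ⟨φ, hφ⟩ => ?_⟩
  have halg : Algebra.IsAlgebraic (IntermediateField.fixedField η.ker) M :=
    Algebra.IsAlgebraic.tower_top (K := K) _
  let _ : Algebra (IntermediateField.fixedField η.ker) ℂ := φ.toAlgebra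
  let Φ : M →+* ℂ := ComplexEmbedding.lift M φ
  have h4 : Φ.comp (algebraMap _ M) = φ := ComplexEmbedding.lift_comp_algebraMap M φ
  obtain ⟨c, hc⟩ := exists_conj (K := K) (φ := Φ) (by
    exact IsTotallyReal.complexEmbedding_isReal _)
  have h5 : c ∈ η.ker := MonoidHom.mem_ker.mpr (odd_one hq hη hc)
  let c' := IntermediateField.subgroupEquivAlgEquiv η.ker ⟨c, h5⟩
  have h6 : c'.restrictScalars K = c := by
    ext x
    rfl
  have h7 : IsConj Φ c' := by
    ext x
    exact RingHom.congr_fun hc x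
  have h8 := hφ Φ h4 c' h7
  change ψ (c'.restrictScalars K) = 1 at h8
  rw [h6, hψ Φ c hc] at h8
  have h9 := congrArg (fun u : ℂˣ => (u : ℂ)) h8
  norm_num at h9

/-- **restriction to an extension of odd prime degree** -/
lemma InT.res {n q : ℕ} (hq : q.Prime) (hq2 : Odd q) {ψ η : (M ≃ₐ[K] M) →* ℂˣ} (hψ : InT n ψ)
    (hη : ∀ g, η g ^ q = 1) (hη1 : ∃ g, η g ≠ 1) (hres : ∃ g, η g = 1 ∧ ψ g ≠ 1) :
    InT (2 * n) (resF (IntermediateField.fixedField η.ker) ψ) := by
  have hfinM : FiniteDimensional K M := Module.Finite.of_restrictScalars_finite ℚ K M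
  have e1 : η ^ q = 1 := MonoidHom.ext hη
  have e2 : η ≠ 1 := by
    obtain ⟨g, hg⟩ := hη1
    rintro rfl
    exact hg rfl
  have hdeg := finrank_ker η hq e1 e2
  refine ⟨?_, ?_, ?_⟩
  · obtain ⟨g, hg1, hg2⟩ := hres
    refine ⟨IntermediateField.subgroupEquivAlgEquiv η.ker ⟨g, hg1⟩, ?_⟩
    have h6 : (IntermediateField.subgroupEquivAlgEquiv η.ker ⟨g, hg1⟩).restrictScalars K = g := by
      ext x
      rfl
    change ψ (AlgEquiv.restrictScalars K _) ≠ 1
    rw [h6]
    exact hg2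
  · rw [← Module.finrank_mul_finrank ℚ K, hdeg, mul_comm]
    exact Nat.mul_le_mul hψ.2.1 hq.two_le
  · rcases hψ.2.2 with h | h
    · exact Or.inl (nTriv_zero hq2 hη h)
    · right
      refine le_trans ?_ (nTriv_resF _ ψ)
      rw [hdeg]
      exact Nat.mul_le_mul hq.two_le h

lemma lineZ {A : ArtinInvariant C} {n q : ℕ} [Fact q.Prime] (hA : TBig A (2 * n)) (hq2 : Odd q)
    {ψ η : (M ≃ₐ[K] M) →* ℂˣ} (hψ : InT n ψ) (hη : ∀ g, η g ^ q = 1) (hη1 : ∃ g, η g ≠ 1)
    (hres : ∃ g, η g = 1 ∧ ψ g ≠ 1) :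
    ∏ j : ZMod q, A.val K M (lc (ψ * η ^ j.val)) = 1 := by
  have hq : q.Prime := Fact.out
  have e1 : η ^ q = 1 := MonoidHom.ext hη
  have e2 : η ≠ 1 := by
    obtain ⟨g, hg⟩ := hη1
    rintro rfl
    exact hg rfl
  rw [prod_zmod (fun j => A.val K M (lc (ψ * η ^ j))), prod_line A ψ η hq e1 e2]
  exact hA _ _ _ (hψ.res hq hq2 hη hη1 hres)

end basics

/-- **descent** for one prime -/
theorem pow_step {A : ArtinInvariant C} {n : ℕ} (hA : TBig A (2 * n)) {q : ℕ} [Fact q.Prime]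
    (hq2 : Odd q) {K L : Type} [Field K] [NumberField K] [Field L] [NumberField L] [Algebra K L]
    [IsGalois K L] {ψ : (L ≃ₐ[K] L) →* ℂˣ} (hψ : InT n ψ) : A.val K L (lc ψ) ^ q = 1 := by
  have hq : q.Prime := Fact.out
  obtain ⟨M, i1, i2, i3, i4, i5, i6, η₁, η₂, h1, h2, hind⟩ := exists_indep' K L hq
  have hfinM : FiniteDimensional K M := Module.Finite.of_restrictScalars_finite ℚ K M
  rw [← val_lin_res (N := M)]
  obtain ⟨ψ', hψ'⟩ : ∃ ψ' : (M ≃ₐ[K] M) →* ℂˣ, ψ' = ψ.comp (AlgEquiv.restrictNormalHom L) :=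
    ⟨_, rfl⟩
  rw [← hψ']
  have hψL : ∀ g : M ≃ₐ[K] M, AlgEquiv.restrictNormalHom L g = 1 → ψ' g = 1 := by
    intro g hg
    rw [hψ', MonoidHom.comp_apply, hg, map_one]
  have hψ1 : ∃ g, ψ' g ≠ 1 := by
    obtain ⟨g, hg⟩ := hψ.1
    obtain ⟨g', rfl⟩ := AlgEquiv.restrictNormalHom_surjective M g
    exact ⟨g', by rw [hψ']; exact hg⟩
  have hT : InT n ψ' := ⟨hψ1, hψ.2.1, by
    rw [hψ', nTriv_infl_eq]
    exact hψ.2.2⟩
  -- the twists
  have hTi : ∀ i : ℕ, InT n (ψ' * η₁ ^ i) := by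
    intro i
    have hp : ∀ g, (η₁ ^ i) g ^ q = 1 := by
      intro g
      rw [MonoidHom.pow_apply, ← pow_mul, mul_comm, pow_mul, h1, one_pow]
    refine ⟨?_, hψ.2.1, ?_⟩
    · by_contra hcon
      push Not at hcon
      have h3 : ∀ g : M ≃ₐ[K] M, AlgEquiv.restrictNormalHom L g = 1 →
          η₁ g ^ i * η₂ g ^ 0 = 1 := by
        intro g hg
        have h4 := hcon g
        rw [MonoidHom.mul_apply, hψL g hg, one_mul, MonoidHom.pow_apply] at h4
        rw [h4, pow_zero, mul_one]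
      obtain ⟨c, hc⟩ := (hind i 0 h3).1
      obtain ⟨g, hg⟩ := hψ1
      apply hg
      have h4 := hcon g
      rwa [MonoidHom.mul_apply, MonoidHom.pow_apply, hc, pow_mul, h1, one_pow, mul_one] at h4
    · rw [nTriv_mul_odd ψ' hq2 hp]
      exact hT.2.2
  have hmod1 : ∀ (g : M ≃ₐ[K] M) (a b : ℕ), a % q = b % q → η₁ g ^ a = η₁ g ^ b := by
    intro g a b hab
    rw [← Nat.div_add_mod a q, ← Nat.div_add_mod b q, pow_add, pow_add, pow_mul, pow_mul, h1,
      one_pow, one_pow, hab]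
  have hmod2 : ∀ (g : M ≃ₐ[K] M) (a b : ℕ), a % q = b % q → η₂ g ^ a = η₂ g ^ b := by
    intro g a b hab
    rw [← Nat.div_add_mod a q, ← Nat.div_add_mod b q, pow_add, pow_add, pow_mul, pow_mul, h2,
      one_pow, one_pow, hab]
  -- the lines
  have hv : ∀ i : ZMod q, ∏ j : ZMod q, A.val K M (lc (ψ' * η₁ ^ i.val * η₂ ^ j.val)) = 1 := by
    intro i
    refine lineZ hA hq2 (hTi i.val) h2 ?_ ?_
    · by_contra hcon
      push Not at hcon
      have h3 := (hind 0 1 (fun g _ => by rw [hcon g, pow_zero, one_mul, one_pow])).2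
      exact hq.one_lt.ne' (Nat.dvd_one.mp h3)
    · by_contra hcon
      push Not at hcon
      have h0 : ∃ g, η₂ g ≠ 1 := by
        by_contra hcon
        push Not at hcon
        have h3 := (hind 0 1 (fun g _ => by rw [hcon g, pow_zero, one_mul, one_pow])).2
        exact hq.one_lt.ne' (Nat.dvd_one.mp h3)
      obtain ⟨c, hc⟩ := eq_pow_of_ker' hq h2 h0 hcon
      have h3 : ∀ g : M ≃ₐ[K] M, AlgEquiv.restrictNormalHom L g = 1 →
          η₁ g ^ i.val * η₂ g ^ ((q - 1) * c) = 1 := by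
        intro g hg
        have h4 := hc g
        rw [MonoidHom.mul_apply, hψL g hg, one_mul, MonoidHom.pow_apply] at h4
        rw [h4, ← pow_add]
        have h5 : c + (q - 1) * c = q * c := by
          have h6 : 1 + (q - 1) = q := by have := hq.pos; omega
          calc c + (q - 1) * c = (1 + (q - 1)) * c := by ring
            _ = _ := by rw [h6]
        rw [h5, pow_mul, h2, one_pow]
      obtain ⟨h4, h5⟩ := hind _ _ h3
      have h6 : q ∣ c := by
        rcases (Nat.Prime.dvd_mul hq).mp h5 with h | h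
        · exfalso
          have := Nat.le_of_dvd (by have := hq.two_le; omega) h
          have := hq.pos
          omega
        · exact h
      obtain ⟨g, hg⟩ := hψ1
      apply hg
      have h7 := hc g
      obtain ⟨u, hu⟩ := h4
      obtain ⟨v, hv⟩ := h6
      rwa [MonoidHom.mul_apply, MonoidHom.pow_apply, hu, pow_mul, h1, one_pow, mul_one, hv,
        pow_mul, h2, one_pow] at h7
  have hd : ∀ b : ZMod q, ∏ i : ZMod q,
      A.val K M (lc (ψ' * η₁ ^ i.val * η₂ ^ (b * i).val)) = 1 := by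
    intro b
    obtain ⟨η, hη⟩ : ∃ η : (M ≃ₐ[K] M) →* ℂˣ, η = η₁ * η₂ ^ b.val := ⟨_, rfl⟩
    have hηg : ∀ g, η g = η₁ g * η₂ g ^ b.val := by
      intro g
      rw [hη, MonoidHom.mul_apply, MonoidHom.pow_apply]
    have e1 : ∀ i : ZMod q, ψ' * η₁ ^ i.val * η₂ ^ (b * i).val = ψ' * η ^ i.val := by
      intro i
      apply MonoidHom.ext
      intro g
      rw [MonoidHom.mul_apply, MonoidHom.mul_apply, MonoidHom.mul_apply, MonoidHom.pow_apply,
        MonoidHom.pow_apply, MonoidHom.pow_apply, hηg, mul_pow, ← pow_mul, mul_assoc]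
      congr 2
      apply hmod2
      rw [ZMod.val_mul, Nat.mod_mod]
    rw [Finset.prod_congr rfl fun i _ => by rw [e1 i]]
    have hηq : ∀ g, η g ^ q = 1 := by
      intro g
      rw [hηg, mul_pow, h1, one_mul, ← pow_mul, mul_comm, pow_mul, h2, one_pow]
    have hη1 : ∃ g, η g ≠ 1 := by
      by_contra hcon
      push Not at hcon
      have h3 := (hind 1 b.val (fun g _ => by
        have h4 := hcon g
        rw [hηg] at h4
        rw [pow_one, h4])).1
      exact hq.one_lt.ne' (Nat.dvd_one.mp h3)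
    refine lineZ hA hq2 hT hηq hη1 ?_
    by_contra hcon
    push Not at hcon
    obtain ⟨c, hc⟩ := eq_pow_of_ker' hq hηq hη1 hcon
    have h3 : ∀ g : M ≃ₐ[K] M, AlgEquiv.restrictNormalHom L g = 1 →
        η₁ g ^ c * η₂ g ^ (b.val * c) = 1 := by
      intro g hg
      have h4 := hc g
      rw [hψL g hg, hηg, mul_pow, ← pow_mul] at h4
      exact h4.symm
    obtain ⟨h4, -⟩ := hind _ _ h3
    obtain ⟨g, hg⟩ := hψ1
    apply hg
    obtain ⟨u, hu⟩ := h4
    rw [hc g, hu, pow_mul, hηq, one_pow]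
  have key := pow_of_lines (fun i j : ZMod q => A.val K M (lc (ψ' * η₁ ^ i.val * η₂ ^ j.val)))
    hv hd
  simp only [ZMod.val_zero] at key
  have h00 : ψ' * η₁ ^ 0 * η₂ ^ 0 = ψ' := by
    apply MonoidHom.ext
    intro g
    simp
  rwa [h00] at key

/-- **descent** -/
theorem tbig_step {A : ArtinInvariant C} {n : ℕ} (hA : TBig A (2 * n)) : TBig A n := by
  intro K L _ _ _ _ _ _ ψ hψ
  have f3 : Fact (Nat.Prime 3) := ⟨Nat.prime_three⟩
  have f5 : Fact (Nat.Prime 5) := ⟨Nat.prime_five⟩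
  have h3 : A.val K L (lc ψ) ^ 3 = 1 := pow_step hA (q := 3) (by decide) hψ
  have h5 : A.val K L (lc ψ) ^ 5 = 1 := pow_step hA (q := 5) (by decide) hψ
  have h6 : A.val K L (lc ψ) ^ 6 = 1 := by
    rw [show 6 = 3 * 2 from rfl, pow_mul, h3, one_pow]
  rw [pow_succ, h5, one_mul] at h6
  exact h6

theorem tbig_all {A : ArtinInvariant C} : ∀ (k n : ℕ), TBig A (2 ^ k * n) → TBig A n := by
  intro k
  induction k with
  | zero =>
    intro n h
    rwa [pow_zero, one_mul] at h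
  | succ k ih =>
    intro n h
    apply ih
    apply tbig_step
    rwa [pow_succ, mul_comm (2 ^ k) 2, mul_assoc] at h

end Pool.Agent.J4.H58.EX
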