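import Mathlib
import Pool.Agent.J4.H58.EX.Step
import Pool.Agent.J4.H58.EX.Triv
import Pool.Agent.J4.H58.DEL.TrivQ

/-!
# Exact relations: the trivial character of `ℚ` and the nontrivial linear characters over the fields
of large degree
-/

set_option autoImplicit false
set_option linter.unusedSectionVars false

namespace Pool.Agent.J4.H58.EX

open NumberField NumberField.ComplexEmbedding Pool.Agent.R389 Pool.Agent.K4H74 Pool.Agent.K4H74.ST
  Pool.Agent.K4H77.SL Pool.Agent.K4H34 Pool.Agent.K4H74.SK Pool.Agent.K4H34.AL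
  Pool.Agent.J4.H37.Stark

variable {C : Type} [CommGroup C]

lemma rankL_zero {K L : Type} [Field K] [NumberField K] [Field L] [NumberField L] [Algebra K L]
    [IsGalois K L] {θ : (L ≃ₐ[K] L) →* ℂˣ} (h : nTriv θ = 0) : rankL θ = 0 := by
  obtain ⟨hK, hθ⟩ := odd_of_nTriv h
  rw [rankL, Nat.card_eq_zero]
  left
  refine ⟨fun ⟨v, hv⟩ => ?_⟩
  obtain ⟨w, hw⟩ := InfinitePlace.comap_surjective (K := L) v
  obtain ⟨c, hc⟩ := exists_conj (K := K) (φ := w.embedding) (by
    exact IsTotallyReal.complexEmbedding_isReal _)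
  have h1 : w.comap (c : L →+* L) = w := by
    conv_rhs => rw [← w.mk_embedding]
    conv_lhs => rw [← w.mk_embedding]
    rw [InfinitePlace.comap_mk, InfinitePlace.mk_eq_iff]
    right
    have h2 : conjugate w.embedding = w.embedding.comp (c : L →+* L) := hc
    rw [← h2]
    exact ComplexEmbedding.involutive_conjugate L _
  have h2 := hv w hw c h1
  rw [hθ _ c hc] at h2
  have h9 := congrArg (fun u : ℂˣ => (u : ℂ)) h2
  norm_num at h9

/-- **Inductive invariants which are trivial on the character `1` of `ℚ` and on the nontrivial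
linear characters of large or vanishing rank over the fields of large degree.** -/
theorem main_exact {A : ArtinInvariant C} (R : ℕ) (h1 : A.val ℚ ℚ (fun _ => 1) = 1)
    (hA : ∀ (K L : Type) [Field K] [NumberField K] [Field L] [NumberField L] [Algebra K L]
      [IsGalois K L] (θ : (L ≃ₐ[K] L) →* ℂˣ), Function.Injective θ → (∃ g, θ g ≠ 1) →
        R ≤ Module.finrank ℚ K → (rankL θ = 0 ∨ R ≤ rankL θ) → A.val K L (lc θ) = 1)
    (K L : Type) [Field K] [NumberField K] [Field L] [NumberField L] [Algebra K L]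
    [IsGalois K L] {χ : (L ≃ₐ[K] L) → ℂ} (hχ : IsChar χ) : A.val K L χ = 1 := by
  have hB : TBig A (2 * R) := by
    intro K L _ _ _ _ _ _ ψ hψ
    obtain ⟨E, i1, i2, i3, i4, i5, i6, θ, hθ, hψθ⟩ := lin_red K L ψ
    have h1 : ψ = θ.comp (AlgEquiv.restrictNormalHom E) := by
      ext g
      rw [← hψθ]
      rfl
    have h2 : nTriv θ = nTriv ψ := by
      rw [h1]
      exact (nTriv_infl_eq θ).symm
    rw [h1, val_lin_res]
    refine hA K E θ hθ ?_ (by have := hψ.2.1; omega) ?_
    · obtain ⟨g, hg⟩ := hψ.1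
      refine ⟨AlgEquiv.restrictNormalHom E g, ?_⟩
      rw [h1] at hg
      exact hg
    · rcases hψ.2.2 with h | h
      · exact Or.inl (rankL_zero (h2.trans h))
      · right
        have h3 := nTriv_le_rankL θ
        omega
  have hB1 : TBig A (2 ^ (2 * R) * 1) := by
    intro K L _ _ _ _ _ _ ψ hψ
    have h3 : 2 * R < 2 ^ (2 * R) := Nat.lt_two_pow_self
    refine hB K L ψ ⟨hψ.1, by have := hψ.2.1; omega, ?_⟩
    rcases hψ.2.2 with h | h
    · exact Or.inl h
    · right
      omega
  have hB2 := tbig_all _ _ hB1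
  have hNT : NT A := by
    intro K L _ _ _ _ _ _ ψ hψ
    refine hB2 K L ψ ⟨hψ, Module.finrank_pos, ?_⟩
    omega
  have hlc : ∀ (K L : Type) [Field K] [NumberField K] [Field L] [NumberField L] [Algebra K L]
      [IsGalois K L], A.val K L (lc 1) = A.val K K (fun _ => 1) := by
    intro K L _ _ _ _ _ _
    have h2 : lc (1 : (L ≃ₐ[K] L) →* ℂˣ) = fun _ => 1 := by
      funext g
      simp [lc]
    rw [h2]
    exact DEL.val_triv K L
  have hT : ∀ (K : Type) [Field K] [NumberField K], A.val K K (fun _ => 1) = 1 := by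
    intro K _ _
    obtain ⟨N, i1, i2, i3, i4⟩ := Pool.Agent.K4H34.ST.exists_gal K
    have hg : IsGalois K N := IsGalois.tower_top_of_isGalois ℚ K N
    rw [← hlc K N, triv_gal hNT, ← triv_gal (K := ℚ) (L := N) hNT, hlc ℚ N, h1]
  have h2 := brauer_red (A := A) (K := K) (L := L) (⊥ : Subgroup C) (fun U ψ => by
    rw [Subgroup.mem_bot]
    by_cases hψ : ψ = 1
    · rw [hψ, hlc, hT]
    · refine hNT _ _ ψ ?_
      by_contra hcon
      push Not at hcon
      exact hψ (MonoidHom.ext hcon)) hχ
  exact Subgroup.mem_bot.mp h2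

end Pool.Agent.J4.H58.EX
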