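import Mathlib
import Pool.Agent.J4.H37.Stark.Rank2
import Pool.Agent.J4.H58.EX.Step

/-!
# Totally odd quadratic characters which are nontrivial on a given Galois group
-/

set_option autoImplicit false
set_option linter.unusedSectionVars false

namespace Pool.Agent.J4.H58.EX

open NumberField Polynomial NumberField.ComplexEmbedding Pool.Agent.R389 Pool.Agent.K4H74
  Pool.Agent.K4H74.ST Pool.Agent.K4H74.SK Pool.Agent.K4H34.AL Pool.Agent.J4.H37.Stark
  Pool.Agent.K4H77.SL Pool.Agent.K4H34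

/-- many odd quadratic characters of the units modulo a product of primes -/
theorem exists_many_odd (t : ℕ) :
    ∃ (n : ℕ) (_ : NeZero n) (Λ : Finset ((ZMod n)ˣ →* ℂˣ)),
      (∀ l ∈ Λ, (∀ x, l x = 1 ∨ l x = -1) ∧ l (-1) = -1) ∧ Λ.card = t := by
  classical
  have hinf : {p : ℕ | p.Prime ∧ p ≡ 3 [MOD 4]}.Infinite := by
    have h1 := Nat.infinite_setOfPred_prime_and_eq_mod (q := 4) (a := (3 : ZMod 4)) (by decide)
    refine h1.mono ?_
    rintro p ⟨hp, h⟩
    refine ⟨hp, ?_⟩
    have h2 : ((p : ℕ) : ZMod 4) = ((3 : ℕ) : ZMod 4) := by rw [h]; rfl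
    exact (ZMod.natCast_eq_natCast_iff _ _ _).mp h2
  obtain ⟨s, hs, hst⟩ := hinf.exists_subset_card_eq t
  let a : s → ℕ := fun p => p.1
  have hprime : ∀ p : s, (a p).Prime := fun p => (hs p.2).1
  have hmod : ∀ p : s, a p ≡ 3 [MOD 4] := fun p => (hs p.2).2
  have hcop : Pairwise (Function.onFun Nat.Coprime a) := by
    intro p p' hpp
    exact (Nat.coprime_primes (hprime p) (hprime p')).mpr fun h => hpp (Subtype.ext h)
  have hne : ∀ p : s, NeZero (a p) := fun p => ⟨(hprime p).ne_zero⟩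
  have hfact : ∀ p : s, Fact (a p).Prime := fun p => ⟨hprime p⟩
  have hn : NeZero (∏ p, a p) := ⟨Finset.prod_ne_zero_iff.mpr fun p _ => (hprime p).ne_zero⟩
  let e : (ZMod (∏ p, a p))ˣ ≃* ((p : s) → (ZMod (a p))ˣ) :=
    (Units.mapEquiv (ZMod.prodEquivPi a hcop).toMulEquiv).trans MulEquiv.piUnits
  have he1 : ∀ p, e (-1) p = -1 := by
    intro p
    apply Units.ext
    have h1 : ((e (-1) p : (ZMod (a p))ˣ) : ZMod (a p))
        = ZMod.prodEquivPi a hcop (-1) p := rfl
    rw [h1, map_neg, map_one]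
    rfl
  -- the characters modulo the primes
  have hω : ∀ p : s, ∃ w : (ZMod (a p))ˣ →* ℂˣ, (∀ x, w x = 1 ∨ w x = -1) ∧ w (-1) = -1 := by
    intro p
    let χ : MulChar (ZMod (a p)) ℂ := (quadraticChar (ZMod (a p))).ringHomComp (Int.castRingHom ℂ)
    refine ⟨χ.toUnitHom, fun x => ?_, ?_⟩
    · have hx : (x : ZMod (a p)) ≠ 0 := x.ne_zero
      rcases quadraticChar_dichotomy hx with h | h
      · left
        apply Units.ext
        rw [MulChar.coe_toUnitHom, MulChar.ringHomComp_apply, h]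
        simp
      · right
        apply Units.ext
        rw [MulChar.coe_toUnitHom, MulChar.ringHomComp_apply, h]
        simp
    · apply Units.ext
      have h2 : ringChar (ZMod (a p)) ≠ 2 := by
        rw [ZMod.ringChar_zmod_n]
        intro h
        have := hmod p
        rw [h] at this
        revert this
        decide
      have h3 : quadraticChar (ZMod (a p)) (-1) = -1 := by
        rw [quadraticChar_neg_one h2, ZMod.card]
        have h4 : a p % 4 = 3 := hmod p
        exact ZMod.χ₄_nat_three_mod_four h4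
      rw [MulChar.coe_toUnitHom, MulChar.ringHomComp_apply]
      have h5 : (((-1 : (ZMod (a p))ˣ) : (ZMod (a p))ˣ) : ZMod (a p)) = -1 := by simp
      rw [h5, h3]
      simp
  choose w hw hw1 using hω
  let F : s → ((ZMod (∏ p, a p))ˣ →* ℂˣ) := fun p =>
    ((w p).comp (Pi.evalMonoidHom _ p)).comp e.toMonoidHom
  have hF : ∀ p x, F p x = w p (e x p) := fun p x => rfl
  have hinj : Function.Injective F := by
    intro p₀ p₁ hpp
    by_contra hne'
    have h1 : F p₀ (e.symm (Pi.mulSingle p₀ (-1))) = F p₁ (e.symm (Pi.mulSingle p₀ (-1))) := by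
      rw [hpp]
    rw [hF, hF, MulEquiv.apply_symm_apply, Pi.mulSingle_eq_same,
      Pi.mulSingle_eq_of_ne (Ne.symm hne'), map_one, hw1] at h1
    have h9 := congrArg (fun u : ℂˣ => (u : ℂ)) h1
    norm_num at h9
  refine ⟨_, hn, Finset.univ.image F, ?_, ?_⟩
  · intro l hl
    obtain ⟨p, -, rfl⟩ := Finset.mem_image.mp hl
    refine ⟨fun x => hw p _, ?_⟩
    rw [hF, he1, hw1]
  · rw [Finset.card_image_of_injective _ hinj, Finset.card_univ, Fintype.card_coe, hst]

/-- **A totally odd quadratic character which is nontrivial on the Galois group over `L`.** -/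
theorem exists_odd (K L : Type) [Field K] [NumberField K] [Field L] [NumberField L] [Algebra K L]
    [IsGalois K L] :
    ∃ (M : Type) (_ : Field M) (_ : NumberField M) (_ : Algebra K M) (_ : Algebra L M)
      (_ : IsScalarTower K L M) (_ : IsGalois K M) (ε : (M ≃ₐ[K] M) →* ℂˣ),
      (∀ g, ε g = 1 ∨ ε g = -1) ∧ (∀ (Φ : M →+* ℂ) (c : M ≃ₐ[K] M), IsConj Φ c → ε c = -1) ∧
        ∃ g : M ≃ₐ[K] M, AlgEquiv.restrictNormalHom L g = 1 ∧ ε g = -1 := by
  classical
  obtain ⟨N₁, i1, i2, i3, i4⟩ := Pool.Agent.K4H34.ST.exists_gal L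
  let D := Module.finrank ℚ L
  obtain ⟨n, hn, Λ, hΛ, hc⟩ := exists_many_odd (D + 1)
  obtain ⟨N, j1, j2, j3, j4, j5, j6, hN⟩ := Pool.Agent.K4H77.SL.exists_ext_poly ℚ N₁
    {cyclotomic n (𝓞 N₁)} (Set.finite_singleton _) (by
      intro f hf
      rw [Set.mem_singleton_iff.mp hf]
      exact cyclotomic.monic n _)
  have ej : j3 = DivisionRing.toRatAlgebra := Subsingleton.elim _ _
  subst ej
  obtain ⟨s, hs⟩ := hN _ (Set.mem_singleton _)
  -- a primitive root
  obtain ⟨z, hz⟩ : ∃ z, z ∈ s := by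
    apply Multiset.exists_mem_of_ne_zero
    rintro rfl
    rw [Multiset.map_zero, Multiset.prod_zero, map_cyclotomic] at hs
    have h1 : (cyclotomic n (𝓞 N)).natDegree = 0 := by rw [hs, natDegree_one]
    rw [natDegree_cyclotomic] at h1
    exact (Nat.totient_pos.mpr (Nat.pos_of_neZero n)).ne' h1
  have hz1 : (cyclotomic n (𝓞 N)).IsRoot z := by
    rw [map_cyclotomic] at hs
    rw [hs, IsRoot.def, eval_multiset_prod, Multiset.map_map, Multiset.prod_eq_zero]
    rw [Multiset.mem_map]
    exact ⟨z, hz, by simp⟩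
  have hz2 : (cyclotomic n N).IsRoot (z : N) := by
    rw [← map_cyclotomic n (algebraMap (𝓞 N) N)]
    exact hz1.map
  have hζ : IsPrimitiveRoot (z : N) n := isRoot_cyclotomic_iff.mp hz2
  let aL : Algebra L N := ((algebraMap N₁ N).comp (algebraMap L N₁)).toAlgebra
  let aK : Algebra K N := ((algebraMap L N).comp (algebraMap K L)).toAlgebra
  have htow : IsScalarTower K L N := IsScalarTower.of_algebraMap_eq fun x => rfl
  have htow2 : IsScalarTower ℚ K N := inferInstance
  have hgal : IsGalois K N := IsGalois.tower_top_of_isGalois ℚ K N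
  let U := ((rsHom L N).range).map (hζ.autToPow ℚ)
  have hU : U.index ≤ D := by
    have h1 := Subgroup.index_map_dvd (H := (rsHom L N).range) (autToPow_surj hζ)
    rw [index_rsHom] at h1
    exact Nat.le_of_dvd Module.finrank_pos h1
  obtain ⟨l, hl, hlU⟩ : ∃ l ∈ Λ, ∃ u ∈ U, l u ≠ 1 := by
    by_contra hcon
    push Not at hcon
    have h1 := card_triv_le U Λ hcon
    omega
  obtain ⟨hl1, hl2⟩ := hΛ l hl
  refine ⟨N, j1, j2, aK, aL, htow, hgal, (l.comp (hζ.autToPow ℚ)).comp (rsHom K N),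
    fun g => hl1 _, ?_, ?_⟩
  · intro Φ c hc
    change l (hζ.autToPow ℚ (rsHom K N c)) = -1
    have h1 : hζ.autToPow ℚ (rsHom K N c) = -1 := by
      apply Units.ext
      apply ZMod.val_injective
      have hn0 : 0 < n := Nat.pos_of_neZero n
      apply hζ.pow_inj (ZMod.val_lt _) (ZMod.val_lt _)
      rw [hζ.autToPow_spec ℚ (rsHom K N c)]
      change c (z : N) = _
      apply Φ.injective
      have h2 : Φ (c (z : N)) = (starRingEnd ℂ) (Φ (z : N)) := (RingHom.congr_fun hc (z : N)).symm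
      rw [h2]
      have h3 : (Φ (z : N)) ^ n = 1 := by rw [← map_pow, hζ.pow_eq_one, map_one]
      have h4 : (starRingEnd ℂ) (Φ (z : N)) * Φ (z : N) = 1 := by
        have h5 : ‖Φ (z : N)‖ = 1 := Complex.norm_eq_one_of_pow_eq_one h3 hn0.ne'
        rw [mul_comm, Complex.mul_conj, Complex.normSq_eq_norm_sq, h5]
        simp
      have h6 : Φ ((z : N) ^ (((-1 : (ZMod n)ˣ) : ZMod n)).val) * Φ (z : N) = 1 := by
        rw [← map_mul, ← pow_succ]
        have h7 : n ∣ (((-1 : (ZMod n)ˣ) : ZMod n)).val + 1 := by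
          rw [← ZMod.natCast_eq_zero_iff]
          push_cast
          rw [ZMod.natCast_zmod_val]
          simp
        rw [(hζ.pow_eq_one_iff_dvd _).mpr h7, map_one]
      have h8 : Φ (z : N) ≠ 0 := by
        intro h
        rw [h, mul_zero] at h4
        exact zero_ne_one h4
      exact mul_right_cancel₀ h8 (h4.trans h6.symm)
    rw [h1, hl2]
  · obtain ⟨u, ⟨h, ⟨g, rfl⟩, rfl⟩, hu⟩ := hlU
    refine ⟨g.restrictScalars K, ?_, ?_⟩
    · apply AlgEquiv.ext
      intro x
      apply (algebraMap L N).injective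
      exact (AlgEquiv.restrictNormal_commutes (g.restrictScalars K) L x).trans (g.commutes x)
    · exact (hl1 _).resolve_left hu

end Pool.Agent.J4.H58.EX
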