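import Mathlib
import Pool.Agent.J4.H58.EX.Main
import Pool.Agent.J4.H58.EX.Odd

/-!
# Exact relations: the trivial character of `ℚ` and the nontrivial linear characters of large rank
-/

set_option autoImplicit false
set_option linter.unusedSectionVars false

namespace Pool.Agent.J4.H58.EX

open NumberField NumberField.ComplexEmbedding Pool.Agent.R389 Pool.Agent.K4H74 Pool.Agent.K4H74.ST
  Pool.Agent.K4H77.SL Pool.Agent.K4H34 Pool.Agent.K4H74.SK Pool.Agent.K4H34.AL
  Pool.Agent.J4.H37.Stark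

variable {C : Type} [CommGroup C]

/-- the invariant is trivial on the nontrivial linear characters which are trivial at `n`
embeddings -/
def RBig (A : ArtinInvariant C) (n : ℕ) : Prop :=
  ∀ (K L : Type) [Field K] [NumberField K] [Field L] [NumberField L] [Algebra K L] [IsGalois K L]
    (ψ : (L ≃ₐ[K] L) →* ℂˣ), (∃ g, ψ g ≠ 1) → n ≤ nTriv ψ → A.val K L (lc ψ) = 1

/-- totally odd characters -/
lemma odd_case {A : ArtinInvariant C} {n : ℕ} (hA : RBig A n) {K L : Type} [Field K]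
    [NumberField K] [Field L] [NumberField L] [Algebra K L] [IsGalois K L]
    {ψ : (L ≃ₐ[K] L) →* ℂˣ} (hψ : nTriv ψ = 0) (hn : n ≤ Module.finrank ℚ K) :
    A.val K L (lc ψ) = 1 := by
  classical
  obtain ⟨hK, hodd⟩ := odd_of_nTriv hψ
  obtain ⟨M, i1, i2, i3, i4, i5, i6, ε, hε, hεc, g₀, hg0, hg1⟩ := exists_odd K L
  have hfinM : FiniteDimensional K M := Module.Finite.of_restrictScalars_finite ℚ K M
  have hneg : (-1 : ℂˣ) ≠ 1 := by
    intro h
    have h9 := congrArg (fun u : ℂˣ => (u : ℂ)) h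
    norm_num at h9
  rw [← val_lin_res (N := M)]
  obtain ⟨ψ', hψ'⟩ : ∃ ψ' : (M ≃ₐ[K] M) →* ℂˣ, ψ' = ψ.comp (AlgEquiv.restrictNormalHom L) :=
    ⟨_, rfl⟩
  rw [← hψ']
  have hψc : ∀ (Φ : M →+* ℂ) (c : M ≃ₐ[K] M), IsConj Φ c → ψ' c = -1 := by
    intro Φ c hc
    rw [hψ', MonoidHom.comp_apply]
    exact hodd _ _ (isConj_res hc)
  have hε2 : ε ^ 2 = 1 := by
    apply MonoidHom.ext
    intro g
    rw [MonoidHom.pow_apply, MonoidHom.one_apply]
    rcases hε g with h | h <;> rw [h] <;> simp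
  have hε1 : ε ≠ 1 := by
    rintro rfl
    exact hneg hg1.symm
  have hψg0 : ψ' g₀ = 1 := by rw [hψ', MonoidHom.comp_apply, hg0, map_one]
  -- the twist is trivial at all embeddings
  have hT : nTriv (ψ' * ε) = Module.finrank ℚ K := by
    unfold nTriv
    rw [← NumberField.Embeddings.card K ℂ, ← Nat.card_eq_fintype_card]
    refine Nat.card_congr (Equiv.subtypeUnivEquiv fun φ => ?_)
    intro Φ hΦ g hg
    rw [MonoidHom.mul_apply, hψc Φ g hg, hεc Φ g hg]
    simp
  have h1 := prod_line A (ψ' * ε) ε Nat.prime_two hε2 hε1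
  rw [Finset.prod_range_succ, Finset.prod_range_one] at h1
  have e0 : ψ' * ε * ε ^ 0 = ψ' * ε := by
    apply MonoidHom.ext
    intro g
    simp
  have e1 : ψ' * ε * ε ^ 1 = ψ' := by
    apply MonoidHom.ext
    intro g
    rw [MonoidHom.mul_apply, MonoidHom.mul_apply, MonoidHom.pow_apply, pow_one]
    rcases hε g with h | h <;> rw [h] <;> simp
  rw [e0, e1] at h1
  have h2 : A.val K M (lc (ψ' * ε)) = 1 := by
    refine hA K M _ ⟨g₀, ?_⟩ (by rw [hT]; exact hn)
    rw [MonoidHom.mul_apply, hψg0, hg1, one_mul]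
    exact hneg
  have h3 : A.val (IntermediateField.fixedField ε.ker) M
      (lc (resF (IntermediateField.fixedField ε.ker) (ψ' * ε))) = 1 := by
    refine hA _ M _ ?_ ?_
    · -- a complex conjugation times `g₀`
      obtain ⟨c, hc⟩ := exists_conj (K := K) (N := M)
        (φ := (Classical.arbitrary (M →+* ℂ))) (by exact IsTotallyReal.complexEmbedding_isReal _)
      have h4 : c * g₀ ∈ ε.ker := by
        rw [MonoidHom.mem_ker, map_mul, hεc _ c hc, hg1]
        simp
      refine ⟨IntermediateField.subgroupEquivAlgEquiv ε.ker ⟨c * g₀, h4⟩, ?_⟩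
      have h6 : (IntermediateField.subgroupEquivAlgEquiv ε.ker ⟨c * g₀, h4⟩).restrictScalars K
          = c * g₀ := by
        ext x
        rfl
      change (ψ' * ε) (AlgEquiv.restrictScalars K _) ≠ 1
      rw [h6, MonoidHom.mul_apply, MonoidHom.mem_ker.mp h4, mul_one, map_mul, hψc _ c hc, hψg0,
        mul_one]
      exact hneg
    · refine le_trans ?_ (nTriv_resF _ (ψ' * ε))
      rw [hT]
      calc n ≤ 1 * Module.finrank ℚ K := by rw [one_mul]; exact hn
        _ ≤ _ := Nat.mul_le_mul_right _ Module.finrank_pos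
  rw [h2, h3, one_mul] at h1
  exact h1

/-- **Inductive invariants which are trivial on the character `1` of `ℚ` and on the nontrivial
linear characters of large rank.** -/
theorem main_rank' {A : ArtinInvariant C} (R : ℕ) (h1 : A.val ℚ ℚ (fun _ => 1) = 1)
    (hA : ∀ (K L : Type) [Field K] [NumberField K] [Field L] [NumberField L] [Algebra K L]
      [IsGalois K L] (θ : (L ≃ₐ[K] L) →* ℂˣ), Function.Injective θ → (∃ g, θ g ≠ 1) →
        R ≤ rankL θ → A.val K L (lc θ) = 1)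
    (K L : Type) [Field K] [NumberField K] [Field L] [NumberField L] [Algebra K L]
    [IsGalois K L] {χ : (L ≃ₐ[K] L) → ℂ} (hχ : IsChar χ) : A.val K L χ = 1 := by
  have hB : RBig A (2 * R) := by
    intro K L _ _ _ _ _ _ ψ hψ hn
    obtain ⟨E, i1, i2, i3, i4, i5, i6, θ, hθ, hψθ⟩ := lin_red K L ψ
    have h1 : ψ = θ.comp (AlgEquiv.restrictNormalHom E) := by
      ext g
      rw [← hψθ]
      rfl
    have h2 : nTriv θ = nTriv ψ := by
      rw [h1]
      exact (nTriv_infl_eq θ).symm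
    rw [h1, val_lin_res]
    have h3 := nTriv_le_rankL θ
    refine hA K E θ hθ ?_ (by omega)
    obtain ⟨g, hg⟩ := hψ
    refine ⟨AlgEquiv.restrictNormalHom E g, ?_⟩
    rw [h1] at hg
    exact hg
  refine main_exact (A := A) (2 * R) h1 ?_ K L hχ
  intro K L _ _ _ _ _ _ θ hθ hθ1 hK hr
  rcases hr with h | h
  · have h3 := nTriv_le_rankL θ
    exact odd_case hB (by omega) hK
  · exact hA K L θ hθ hθ1 (by omega)

/-- the value of an inductive invariant at `χ` is the product of the `m`-th power of its value at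
the trivial character of `ℚ`, `m` the multiplicity of the trivial character in `χ`, and of powers of
its values at nontrivial linear characters of large rank -/
theorem form' {M : Type} [CommGroup M] (A : ArtinInvariant M) (R : ℕ) (T : Pair → Prop)
    (hT : ∀ (E : Ext) (ψ : G E →* ℂˣ), Function.Injective ψ → (∃ g, ψ g ≠ 1) →
      R ≤ rankL (show (E.L ≃ₐ[E.K] E.L) →* ℂˣ from ψ) → T ⟨E, lin ψ⟩)
    {E : Ext} {χ : G E → ℂ} (hχ : IsChr χ) :
    ∃ (m : ℤ) (r : ℕ) (x : Fin r → Pair) (k : Fin r → ℤ), (∀ i, T (x i)) ∧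
      (m : ℂ) = (Nat.card (G E) : ℂ)⁻¹ * ∑ᶠ g : G E, χ g ∧
      pval A ⟨E, χ⟩ = pval A ⟨⟨ℚ, ℚ⟩, fun _ => 1⟩ ^ m * ∏ i, pval A (x i) ^ k i := by
  let P : Subgroup M := Subgroup.closure {y : M | ∃ x : Pair, T x ∧ y = pval A x}
  let B : ArtinInvariant (M ⧸ P) := mapInv (QuotientGroup.mk' P) A
  have hB : ∀ x : Pair, T x → B.val x.1.K x.1.L x.2 = 1 := by
    intro x hx
    exact (QuotientGroup.eq_one_iff (N := P) _).mpr (Subgroup.subset_closure ⟨x, hx, rfl⟩)
  obtain ⟨b, hb⟩ : ∃ b, b = B.val ℚ ℚ (fun _ => 1) := ⟨_, rfl⟩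
  let Z : Subgroup ((M ⧸ P) × Multiplicative ℂ) :=
    Subgroup.zpowers ((b, Multiplicative.ofAdd (1 : ℂ)))
  let D : ArtinInvariant (((M ⧸ P) × Multiplicative ℂ) ⧸ Z) :=
    mapInv (QuotientGroup.mk' Z) (prodInv B meanInv)
  have h1Q : (fun _ => (1 : ℂ)) = lc (1 : (ℚ ≃ₐ[ℚ] ℚ) →* ℂˣ) := by
    funext g
    simp [lc]
  have h1 : D.val ℚ ℚ (fun _ => 1) = 1 := by
    refine (QuotientGroup.eq_one_iff (N := Z) _).mpr ?_
    have h2 : (prodInv B meanInv).val ℚ ℚ (fun _ => 1) = (b, Multiplicative.ofAdd (1 : ℂ)) := by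
      refine Prod.ext hb.symm ?_
      refine Multiplicative.toAdd.injective ?_
      change Multiplicative.toAdd (meanInv.val ℚ ℚ (fun _ => 1)) = 1
      rw [h1Q]
      exact (mean_val (K := ℚ) (L := ℚ) 1).1 rfl
    rw [h2]
    exact Subgroup.mem_zpowers _
  have h3 := main_rank' (A := D) R h1 (fun K L _ _ _ _ _ _ θ hθ h4 h5 => by
    refine (QuotientGroup.eq_one_iff (N := Z) _).mpr ?_
    have h6 : (prodInv B meanInv).val K L (lc θ) = 1 := by
      refine Prod.ext (hB _ (hT ⟨K, L⟩ θ hθ h4 h5)) ?_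
      refine Multiplicative.toAdd.injective ((mean_val θ).2 ?_)
      rintro rfl
      obtain ⟨g, hg⟩ := h4
      exact hg rfl
    rw [h6]
    exact one_mem _) E.K E.L (isChr_iff.mp hχ)
  have h4 : (prodInv B meanInv).val E.K E.L χ ∈ Z := (QuotientGroup.eq_one_iff _).mp h3
  obtain ⟨m, hm⟩ := h4
  have h5 : b ^ m = B.val E.K E.L χ := congrArg Prod.fst hm
  have h6 : (Multiplicative.ofAdd (1 : ℂ)) ^ m = meanInv.val E.K E.L χ := congrArg Prod.snd hm
  have h7 : pval A ⟨E, χ⟩ * (pval A ⟨⟨ℚ, ℚ⟩, fun _ => 1⟩ ^ m)⁻¹ ∈ P := by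
    rw [← QuotientGroup.eq_one_iff, QuotientGroup.mk_mul, QuotientGroup.mk_inv,
      QuotientGroup.mk_zpow, mul_inv_eq_one]
    rw [hb] at h5
    exact h5.symm
  obtain ⟨r, x, k, hx, h8⟩ := closure_form A T h7
  refine ⟨m, r, x, k, hx, ?_, ?_⟩
  · have h9 := congrArg Multiplicative.toAdd h6
    rw [toAdd_zpow, toAdd_ofAdd, zsmul_eq_mul, mul_one] at h9
    rw [h9]
    change BSD.mul trivFun E.K (show (E.L ≃ₐ[E.K] E.L) → ℂ from χ) = _
    unfold BSD.mul
    congr 1
    refine finsum_congr fun g => ?_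
    have h10 : LinearMap.trace ℂ (trivFun.X E.L) (BSD.gact trivFun E.K g⁻¹) = 1 := by
      change LinearMap.trace ℂ ℂ (LinearMap.id) = 1
      rw [LinearMap.trace_id, Module.finrank_self, Nat.cast_one]
    rw [h10, mul_one]
  · rw [← h8, mul_comm, inv_mul_cancel_right]

end Pool.Agent.J4.H58.EX
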